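import Pool.Agent.Q87.BZ.Core

/-!
# The coefficient bound for the Bazilevic class `B_1(α)`, `α ≥ 1`

For every real `α ≥ 1`, every `f(z) = z + a_2 z^2 + ...` in `B_1(α)` and every `n ≥ 2`,
`|a_n| ≤ 2/(n - 1 + α)`.

Proof.  Put `F = (f/z)^α` and `h = (f/z)^(α-1) f' = F + z F'/α`, so the coefficients of `F` are
`a_k c_k` with `a_k = α/(k + α)` and `c_k` the coefficients of `h`, `Re h > 0`.  For `0 < t ≤ 1`
the sequence `t a_k` (with value one at `k = 0`) is log-convex, so by Kaluza's theorem it is a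
renewal sequence; the renewal identity and the Cauchy-Schwarz inequality give, for every
log-convex sequence, that the coefficients of the reciprocal of the multiplier transform of `h`
are at most `2 a_k` in modulus.  Finally `F^(1/α)` is an average of the functions
`1/(1 + t (F - 1))`, `0 < t < 1`.
-/

set_option autoImplicit false

namespace Pool.Agent.Results.MP_7a60ac_an.CoefficientBound

/-- The class `B_1(α)`: `f` is analytic on the unit disc, `f(0) = 0`, `f'(0) = 1`, `f(z)/z` has no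
zero, and `Re [(f(z)/z)^(α-1) f'(z)] > 0` on the disc. Here `L` is the analytic logarithm of
`f(z)/z` with `L(0) = 0`, so `exp((α-1) L(z))` is the branch of `(f(z)/z)^(α-1)` equal to `1`
at `0`. -/
def BazilevicB1 (α : ℝ) (f : ℂ → ℂ) : Prop :=
  DifferentiableOn ℂ f (Metric.ball 0 1) ∧ f 0 = 0 ∧ deriv f 0 = 1 ∧
    ∃ L : ℂ → ℂ, DifferentiableOn ℂ L (Metric.ball 0 1) ∧ L 0 = 0 ∧
      (∀ z ∈ Metric.ball (0 : ℂ) 1, f z = z * Complex.exp (L z)) ∧
      ∀ z ∈ Metric.ball (0 : ℂ) 1,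
        0 < (Complex.exp (((α : ℂ) - 1) * L z) * deriv f z).re

/-- The `n`-th Taylor coefficient at `0`. -/
noncomputable def coefficient (f : ℂ → ℂ) (n : ℕ) : ℂ := iteratedDeriv n f 0 / n.factorial

/-- **Theorem.** For every real `α ≥ 1`, every `f ∈ B_1(α)` and every `n ≥ 2`,
`|a_n| ≤ 2/(n - 1 + α)`. -/
theorem result : ∀ α : ℝ, 1 ≤ α → ∀ f : ℂ → ℂ, BazilevicB1 α f → ∀ n : ℕ, 2 ≤ n →
    ‖coefficient f n‖ ≤ 2 / ((n : ℝ) - 1 + α) := by
  intro α hα f hf n hn
  obtain ⟨-, -, -, L, hL, hL0, hfL, hre⟩ := hf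
  have h := Pool.Agent.Q87.BZ.core hα hL hL0 hfL hre (n - 1) (by omega)
  have h1 : n - 1 + 1 = n := by omega
  rw [h1] at h
  have h2 : ((n - 1 : ℕ) : ℝ) = (n : ℝ) - 1 := by
    rw [Nat.cast_sub (by omega)]; simp
  rw [h2] at h
  exact h

end Pool.Agent.Results.MP_7a60ac_an.CoefficientBound
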